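import Pool.Agent.MP_e633d5_co.Defs
import Pool.Prelude.Def_F_458e953d

/-! The decision problem: is a given sequence realizable as a `k`-cyclic graph. -/

namespace Pool.Agent.MP_e633d5_co.H84

open Classical in
/-- The code words of the pairs (`k` in unary, non-increasing list `d`) such that `d` is the degree
sequence of a `k`-cyclic graph. -/
noncomputable def KCYC : N68a2faeb.DecisionProblem := fun x =>
  decide (∃ (k : ℕ) (d : List ℕ), N487b59b3.bitEncode (List.replicate k true, d) = x ∧
    d.Pairwise (· ≥ ·) ∧
      ∃ G : SimpleGraph (Fin d.length), KCyclic G k ∧ ∀ i, dg G i = d.get i)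

end Pool.Agent.MP_e633d5_co.H84
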